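import Pool.Agent.helper11.RPQ.SpecT
import Pool.Agent.helper56.RS.NRL

/-!
# MP_07c750, row rpq:CPL
-/

set_option autoImplicit false

open scoped MatrixGroups ContDiff Topology UpperHalfPlane ComplexConjugate
open UpperHalfPlane MeasureTheory Filter Set

namespace Pool.Agent.RPQ

open Pool.Agent.RS
open Pool.Agent.MS (BA BB st pf gk Dk amk)

noncomputable section

/-! ## Abstract part -/

theorem CPL_abs {H : Type} [NormedAddCommGroup H] [InnerProductSpace ℂ H] (E : Submodule ℂ H) [FiniteDimensional ℂ E]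
    (L : E →ₗ[ℂ] E) (hL : L.IsSymmetric) (u : H) (w : E) :
    ∃ (n : ℕ) (v : Fin n → E) (lam : Fin n → ℝ), (∀ i, L (v i) = (lam i : ℂ) • v i) ∧
      (∀ i j, inner ℂ (v i : H) (v j : H) = if i = j then 1 else 0) ∧
      ‖u - ∑ i, inner ℂ (v i : H) u • (v i : H)‖ ≤ ‖u - w‖ := by
  obtain ⟨b, hb⟩ : ∃ b : OrthonormalBasis (Fin (Module.finrank ℂ E)) ℂ E, b = hL.eigenvectorBasis rfl := ⟨_, rfl⟩
  have hon : ∀ i j, inner ℂ (b i : H) (b j : H) = if i = j then (1 : ℂ) else 0 :=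
    fun i j => (orthonormal_iff_ite.1 b.orthonormal) i j
  refine ⟨Module.finrank ℂ E, fun i => b i, hL.eigenvalues rfl, fun i => ?_, hon, ?_⟩
  · rw [hb]; exact hL.apply_eigenvectorBasis rfl i
  · obtain ⟨P, hP⟩ : ∃ P : E, P = ∑ i, inner ℂ (b i : H) u • b i := ⟨_, rfl⟩
    have hP' : ∑ i, inner ℂ (b i : H) u • (b i : H) = (P : H) := by
      rw [hP]; push_cast; rfl
    rw [hP']
    have h1 : ∀ i, inner ℂ (b i : H) (u - P) = (0 : ℂ) := by
      intro i
      rw [inner_sub_right, ← hP', inner_sum]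
      have h2 : ∀ j, inner ℂ (b i : H) (inner ℂ (b j : H) u • (b j : H)) = if j = i then inner ℂ (b i : H) u else 0 := by
        intro j
        rw [inner_smul_right, hon i j]
        by_cases h : i = j
        · rw [if_pos h, if_pos h.symm, h, mul_one]
        · rw [if_neg h, if_neg fun h' => h h'.symm, mul_zero]
      rw [Finset.sum_congr rfl fun j _ => h2 j, Finset.sum_ite_eq' Finset.univ i, if_pos (Finset.mem_univ _), sub_self]
    have h2 : ∀ x : E, inner ℂ (x : H) (u - P) = (0 : ℂ) := by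
      intro x
      have h3 : (x : H) = ∑ i, b.repr x i • (b i : H) := by
        conv_lhs => rw [← b.sum_repr x]
        push_cast
        rfl
      rw [h3, sum_inner]
      refine Finset.sum_eq_zero fun i _ => ?_
      rw [inner_smul_left, h1 i, mul_zero]
    have h3 : inner ℂ (u - P) ((P - w : E) : H) = (0 : ℂ) := by
      rw [← inner_conj_symm, h2, map_zero]
    have h4 := norm_add_sq_eq_norm_sq_add_norm_sq_of_inner_eq_zero _ _ h3
    have h5 : (u - P) + ((P - w : E) : H) = u - w := by push_cast; abel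
    rw [h5] at h4
    have h6 : ‖u - P‖ * ‖u - P‖ ≤ ‖u - w‖ * ‖u - w‖ := by
      have := mul_self_nonneg ‖((P - w : E) : H)‖
      linarith
    exact (mul_self_le_mul_self_iff (norm_nonneg _) (norm_nonneg _)).2 h6

/-! ## The inner product -/

/-- the inner product -/
def CPL_ip (F : Set ℍ) (u v : ℍ → ℂ) : ℂ := ∫ z in F, conj (u z) * v z

theorem CPL_int {Γ : Subgroup SL(2, ℝ)} {F : Set ℍ} (hF : QU.NiceDom Γ F) {E : Type} [NormedAddCommGroup E] {f : ℍ → E} (hf : Continuous f) :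
    IntegrableOn f F := by
  obtain ⟨K, hK, hFK⟩ := hF.rel
  exact (hf.continuousOn.integrableOn_compact hK).mono_set hFK

theorem CPL_ipc {Γ : Subgroup SL(2, ℝ)} {F : Set ℍ} (hF : QU.NiceDom Γ F) {u v : ℍ → ℂ} (hu : Continuous u) (hv : Continuous v) :
    IntegrableOn (fun z => conj (u z) * v z) F :=
  CPL_int hF ((Complex.continuous_conj.comp hu).mul hv)

theorem CPL_self (F : Set ℍ) (u : ℍ → ℂ) : CPL_ip F u u = ((nn F u : ℝ) : ℂ) := by
  unfold CPL_ip nn
  rw [← integral_complex_ofReal]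
  refine integral_congr_ae (Eventually.of_forall fun z => ?_)
  show conj (u z) * u z = ((‖u z‖ ^ 2 : ℝ) : ℂ)
  rw [mul_comm, Complex.mul_conj, Complex.normSq_eq_norm_sq]

/-- symmetry of the convolution -/
theorem CPL_sym (Γ : Subgroup SL(2, ℝ)) (F : Set ℍ) (κ : ℝ → ℝ) (f g : ℍ → ℂ)
    (hΓ : QU.SurfaceGroup Γ) (hF : QU.NiceDom Γ F) (hκ : QU.RK κ) (hf : InvC Γ f) (hg : InvC Γ g) :
    ∫ z in F, conj (QU.conv κ f z) * g z = ∫ z in F, conj (f z) * QU.conv κ g z := by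
  obtain ⟨_, _, tsym, tinv, tcont, tdist, _, _⟩ := QU.A_TTT
  have hκc : Continuous κ := hκ.smooth.continuous
  obtain ⟨s, hs⟩ := hκ.supp
  have key := QU.A_SYM Γ F ℂ (fun z w => κ (QU.tt z w) • (conj (f w) * g z)) hΓ hF
    (by
      have e : (Function.uncurry fun z w : ℍ => κ (QU.tt z w) • (conj (f w) * g z)) =
          fun p : ℍ × ℍ => κ (QU.tt p.1 p.2) • (conj (f p.2) * g p.1) := by
        funext p
        rfl
      rw [e]
      exact (hκc.comp tcont).smul (((Complex.continuous_conj.comp hf.1).comp continuous_snd).mul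
        (hg.1.comp continuous_fst)))
    (by
      intro γ z w
      have e1 : QU.tt (γ • z) (γ • w) = QU.tt z w := tinv (γ : SL(2, ℝ)) z w
      show κ (QU.tt (γ • z) (γ • w)) • (conj (f (γ • w)) * g (γ • z)) = κ (QU.tt z w) • (conj (f w) * g z)
      rw [e1, hf.2, hg.2])
    (by
      obtain ⟨R, _, hR⟩ := tdist s
      refine ⟨R, fun z w hne => hR z w ?_⟩
      by_contra hcon
      push Not at hcon
      apply hne
      show κ (QU.tt z w) • (conj (f w) * g z) = 0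
      rw [hs _ hcon.le, zero_smul])
  have hL : (∫ z in F, conj (QU.conv κ f z) * g z) =
      ∫ z in F, ∫ w : ℍ, κ (QU.tt z w) • (conj (f w) * g z) := by
    congr 1
    funext z
    have e0 : conj (QU.conv κ f z) = ∫ w : ℍ, κ (QU.tt z w) • conj (f w) := by
      unfold QU.conv
      rw [← integral_conj]
      congr 1
      funext w
      rw [Complex.real_smul, map_mul, Complex.conj_ofReal, Complex.real_smul]
    rw [e0, ← integral_mul_const]
    congr 1
    funext w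
    rw [smul_mul_assoc]
  have hR : (∫ z in F, conj (f z) * QU.conv κ g z) =
      ∫ z in F, ∫ w : ℍ, κ (QU.tt w z) • (conj (f z) * g w) := by
    congr 1
    funext z
    unfold QU.conv
    rw [← integral_const_mul]
    congr 1
    funext w
    rw [tsym w z, mul_smul_comm]
  rw [hL, hR]
  exact key

theorem CPL_close {Γ : Subgroup SL(2, ℝ)} {F : Set ℍ} (hF : QU.NiceDom Γ F) (f f' g : ℍ → ℂ) (ε : ℝ)
    (hf : Continuous f) (hf' : Continuous f') (hg : Continuous g) (h : ∀ z ∈ F, ‖f z - f' z‖ ≤ ε) :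
    ‖CPL_ip F f g - CPL_ip F f' g‖ ≤ ε * ∫ z in F, ‖g z‖ ∧ ‖CPL_ip F g f - CPL_ip F g f'‖ ≤ ε * ∫ z in F, ‖g z‖ := by
  have hm := hF.meas
  constructor
  · unfold CPL_ip
    rw [← integral_sub (CPL_ipc hF hf hg) (CPL_ipc hF hf' hg), ← integral_const_mul]
    refine norm_integral_le_of_norm_le ((CPL_int hF hg.norm).const_mul ε) ?_
    filter_upwards [ae_restrict_mem hm] with z hz
    rw [← sub_mul, ← map_sub, norm_mul, RCLike.norm_conj]
    exact mul_le_mul_of_nonneg_right (h z hz) (norm_nonneg _)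
  · unfold CPL_ip
    rw [← integral_sub (CPL_ipc hF hg hf) (CPL_ipc hF hg hf'), ← integral_const_mul]
    refine norm_integral_le_of_norm_le ((CPL_int hF hg.norm).const_mul ε) ?_
    filter_upwards [ae_restrict_mem hm] with z hz
    rw [← mul_sub, norm_mul, RCLike.norm_conj, mul_comm]
    exact mul_le_mul_of_nonneg_right (h z hz) (norm_nonneg _)

/-- the Laplace operator is symmetric -/
theorem CPL_lap (Γ : Subgroup SL(2, ℝ)) (F : Set ℍ) (x y : ℍ → ℂ) (hΓ : QU.SurfaceGroup Γ) (hF : QU.NiceDom Γ F)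
    (hx : InvC Γ x) (hy : InvC Γ y) (hx2 : QU.CD 2 x) (hy2 : QU.CD 2 y) (hlx : Continuous (QU.lap x)) (hly : Continuous (QU.lap y)) :
    CPL_ip F (QU.lap x) y = CPL_ip F x (QU.lap y) := by
  obtain ⟨fam, hfam⟩ := QU.A_KFM
  have hapx := (QU.A_APX fam hfam).1 ℂ
  obtain ⟨K, hK, hFK⟩ := hF.rel
  have hC0 : 0 ≤ (∫ z in F, ‖y z‖) + ∫ z in F, ‖x z‖ := by positivity
  have key : ∀ ε : ℝ, 0 < ε → ‖CPL_ip F (QU.lap x) y - CPL_ip F x (QU.lap y)‖ ≤ ε * ((∫ z in F, ‖y z‖) + ∫ z in F, ‖x z‖) := by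
    intro ε hε
    obtain ⟨η₁, hη₁, h₁⟩ := hapx (QU.lap x) hlx K hK ε hε
    obtain ⟨η₂, hη₂, h₂⟩ := hapx (QU.lap y) hly K hK ε hε
    obtain ⟨η, hη⟩ : ∃ η, η = min η₁ η₂ := ⟨_, rfl⟩
    have hηp : 0 < η := by rw [hη]; exact lt_min hη₁ hη₂
    have h₁' := h₁ η hηp (by rw [hη]; exact min_le_left _ _)
    have h₂' := h₂ η hηp (by rw [hη]; exact min_le_right _ _)
    have hκ := hfam.rk η hηp
    have hLκ : QU.RK (QU.LL (fam η)) := QU.A_LAK.2.2.2.1 _ hκ
    have e1 : QU.conv (QU.LL (fam η)) x = QU.conv (fam η) (QU.lap x) :=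
      funext fun z => (QU.A_COM ℂ (fam η) x hκ hx2 z).symm
    have e2 : QU.conv (QU.LL (fam η)) y = QU.conv (fam η) (QU.lap y) :=
      funext fun z => (QU.A_COM ℂ (fam η) y hκ hy2 z).symm
    have hs := CPL_sym Γ F (QU.LL (fam η)) x y hΓ hF hLκ hx hy
    rw [e1, e2] at hs
    have hs' : CPL_ip F (QU.conv (fam η) (QU.lap x)) y = CPL_ip F x (QU.conv (fam η) (QU.lap y)) := hs
    have hc1 : Continuous (QU.conv (fam η) (QU.lap x)) := (QU.A_CVB ℂ).2.2.2.2.2.1 _ _ hκ hlx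
    have hc2 : Continuous (QU.conv (fam η) (QU.lap y)) := (QU.A_CVB ℂ).2.2.2.2.2.1 _ _ hκ hly
    have c1 := (CPL_close hF (QU.lap x) (QU.conv (fam η) (QU.lap x)) y ε hlx hc1 hy.1
      (fun z hz => by rw [norm_sub_rev]; exact h₁' z (hFK hz))).1
    have c2 := (CPL_close hF (QU.lap y) (QU.conv (fam η) (QU.lap y)) x ε hly hc2 hx.1
      (fun z hz => by rw [norm_sub_rev]; exact h₂' z (hFK hz))).2
    have e3 : CPL_ip F (QU.lap x) y - CPL_ip F x (QU.lap y) = (CPL_ip F (QU.lap x) y - CPL_ip F (QU.conv (fam η) (QU.lap x)) y)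
        - (CPL_ip F x (QU.lap y) - CPL_ip F x (QU.conv (fam η) (QU.lap y))) := by rw [hs']; ring
    rw [e3, mul_add]
    exact (norm_sub_le _ _).trans (add_le_add c1 c2)
  rw [← sub_eq_zero, ← norm_le_zero_iff]
  refine le_of_forall_pos_le_add fun δ hδ => ?_
  have h := key (δ / ((∫ z in F, ‖y z‖) + (∫ z in F, ‖x z‖) + 1)) (by positivity)
  refine h.trans ?_
  rw [zero_add, div_mul_eq_mul_div, div_le_iff₀ (by positivity)]
  exact mul_le_mul_of_nonneg_left (by linarith) hδ.le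

/-! ## The Hilbert space -/

/-- the invariant continuous functions -/
def CPL_W (Γ : Subgroup SL(2, ℝ)) : Submodule ℂ (ℍ → ℂ) where
  carrier := {u | InvC Γ u}
  add_mem' := by
    intro u v hu hv
    refine ⟨hu.1.add hv.1, fun γ z => ?_⟩
    show u (γ • z) + v (γ • z) = u z + v z
    rw [hu.2 γ z, hv.2 γ z]
  zero_mem' := ⟨continuous_const, fun _ _ => rfl⟩
  smul_mem' := by
    intro c u hu
    refine ⟨hu.1.const_smul c, fun γ z => ?_⟩
    show c • u (γ • z) = c • u z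
    rw [hu.2 γ z]

@[instance_reducible]
def CPL_core (Γ : Subgroup SL(2, ℝ)) (F : Set ℍ) (h : QU.SurfaceGroup Γ ∧ QU.NiceDom Γ F) : InnerProductSpace.Core ℂ (CPL_W Γ) where
  inner u v := CPL_ip F u v
  conj_inner_symm u v := by
    show conj (CPL_ip F v u) = CPL_ip F u v
    unfold CPL_ip
    rw [← integral_conj]
    refine integral_congr_ae (Eventually.of_forall fun z => ?_)
    show conj (conj ((v : ℍ → ℂ) z) * (u : ℍ → ℂ) z) = conj ((u : ℍ → ℂ) z) * (v : ℍ → ℂ) z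
    rw [map_mul, Complex.conj_conj, mul_comm]
  re_inner_nonneg u := by
    show 0 ≤ (CPL_ip F u u).re
    rw [CPL_self, Complex.ofReal_re]
    exact integral_nonneg fun z => by positivity
  add_left u v w := by
    show CPL_ip F ((u : ℍ → ℂ) + (v : ℍ → ℂ)) w = CPL_ip F u w + CPL_ip F v w
    unfold CPL_ip
    rw [← integral_add (CPL_ipc h.2 u.2.1 w.2.1) (CPL_ipc h.2 v.2.1 w.2.1)]
    refine integral_congr_ae (Eventually.of_forall fun z => ?_)
    show conj ((u : ℍ → ℂ) z + (v : ℍ → ℂ) z) * (w : ℍ → ℂ) z = conj ((u : ℍ → ℂ) z) * (w : ℍ → ℂ) z + conj ((v : ℍ → ℂ) z) * (w : ℍ → ℂ) z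
    rw [map_add, add_mul]
  smul_left u v r := by
    show CPL_ip F (r • (u : ℍ → ℂ)) v = conj r * CPL_ip F u v
    unfold CPL_ip
    rw [← integral_const_mul]
    refine integral_congr_ae (Eventually.of_forall fun z => ?_)
    show conj (r * (u : ℍ → ℂ) z) * (v : ℍ → ℂ) z = conj r * (conj ((u : ℍ → ℂ) z) * (v : ℍ → ℂ) z)
    rw [map_mul, mul_assoc]
  definite u hu := by
    have h1 : CPL_ip F u u = 0 := hu
    rw [CPL_self] at h1
    by_contra hne
    have h2 := NRL_pos Γ F h.1 h.2 u u.2 fun h3 => hne (Subtype.ext h3)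
    have h3 : nn F u = 0 := by exact_mod_cast h1
    rw [h3] at h2
    exact lt_irrefl _ h2

/-- the space of the invariant continuous functions with its inner product -/
def CPL_H (Γ : Subgroup SL(2, ℝ)) (F : Set ℍ) (_ : QU.SurfaceGroup Γ ∧ QU.NiceDom Γ F) : Type := CPL_W Γ

variable (Γ : Subgroup SL(2, ℝ)) (F : Set ℍ) (h : QU.SurfaceGroup Γ ∧ QU.NiceDom Γ F)

instance CPL_inst1 : NormedAddCommGroup (CPL_H Γ F h) :=
  @InnerProductSpace.Core.toNormedAddCommGroup ℂ (CPL_W Γ) _ _ _ (CPL_core Γ F h)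

instance CPL_inst2 : InnerProductSpace ℂ (CPL_H Γ F h) :=
  @InnerProductSpace.ofCore ℂ (CPL_W Γ) _ _ _ (CPL_core Γ F h).toCore

/-- the function -/
def CPL_lin : CPL_H Γ F h →ₗ[ℂ] (ℍ → ℂ) where
  toFun u := (show CPL_W Γ from u).1
  map_add' _ _ := rfl
  map_smul' _ _ := rfl

/-- the element -/
def CPL_mk (u : ℍ → ℂ) (hu : InvC Γ u) : CPL_H Γ F h := (⟨u, hu⟩ : CPL_W Γ)

theorem CPL_lin_mk (u : ℍ → ℂ) (hu : InvC Γ u) : CPL_lin Γ F h (CPL_mk Γ F h u hu) = u := rfl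

theorem CPL_lin_inj : Function.Injective (CPL_lin Γ F h) := fun _ _ e => Subtype.ext e

theorem CPL_lin_inv (u : CPL_H Γ F h) : InvC Γ (CPL_lin Γ F h u) := (show CPL_W Γ from u).2

theorem CPL_inner (u v : CPL_H Γ F h) : inner ℂ u v = CPL_ip F (CPL_lin Γ F h u) (CPL_lin Γ F h v) := rfl

theorem CPL_norm (u : CPL_H Γ F h) : ‖u‖ ^ 2 = nn F (CPL_lin Γ F h u) := by
  rw [norm_sq_eq_re_inner (𝕜 := ℂ)]
  show (CPL_ip F (CPL_lin Γ F h u) (CPL_lin Γ F h u)).re = _
  rw [CPL_self]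
  exact Complex.ofReal_re _

theorem CPL_proof (hSPD : SPD_stmt) : CPL_stmt := by
  intro Γ F hΓ hF u e hu he
  obtain ⟨v, hv, hve⟩ := hSPD Γ F hΓ hF u e hu he
  obtain ⟨T, hT, hvT⟩ := Submodule.mem_span_finite_of_mem_span hv
  have h : QU.SurfaceGroup Γ ∧ QU.NiceDom Γ F := ⟨hΓ, hF⟩
  obtain ⟨E0, hE0⟩ : ∃ E0 : Submodule ℂ (ℍ → ℂ), E0 = Submodule.span ℂ (T : Set (ℍ → ℂ)) := ⟨_, rfl⟩
  rw [← hE0] at hvT
  have hfin0 : FiniteDimensional ℂ E0 := by
    rw [hE0]; exact FiniteDimensional.span_finset ℂ T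
  -- the functions of `E0`
  have hE : ∀ x ∈ E0, QU.CD 2 x ∧ QU.lap x ∈ E0 ∧ InvC Γ x := by
    intro x hx
    rw [hE0] at hx
    induction hx using Submodule.span_induction with
    | mem x hx =>
      obtain ⟨lam, hlam⟩ := hT hx
      have hxE : x ∈ E0 := by rw [hE0]; exact Submodule.subset_span hx
      refine ⟨hlam.1, ?_, ⟨((QU.A_CA1 ℂ).1 x).1 ((QU.A_CA1 ℂ).2.1 x 0 2 bot_le hlam.1), hlam.2.1⟩⟩
      have e1 : QU.lap x = (lam : ℂ) • x := funext hlam.2.2
      rw [e1]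
      exact E0.smul_mem _ hxE
    | zero =>
      refine ⟨(QU.A_CA1 ℂ).2.2.2.2.2.2.2.2.1 0 2, ?_, ⟨continuous_const, fun _ _ => rfl⟩⟩
      have e1 : QU.lap (0 : ℍ → ℂ) = 0 := by
        funext z
        have h1 := NRL_smul 0 (0 : ℍ → ℂ) ((QU.A_CA1 ℂ).2.2.2.2.2.2.2.2.1 0 2) z
        rw [zero_smul, zero_mul] at h1
        exact h1
      rw [e1]
      exact E0.zero_mem
    | add x y _ _ hx hy =>
      refine ⟨(QU.A_CA1 ℂ).2.2.1 x y 2 hx.1 hy.1, ?_, (CPL_W Γ).add_mem hx.2.2 hy.2.2⟩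
      have e1 : QU.lap (x + y) = QU.lap x + QU.lap y := funext fun z => NRL_add x y hx.1 hy.1 z
      rw [e1]
      exact E0.add_mem hx.2.1 hy.2.1
    | smul c x _ hx =>
      refine ⟨hx.1.const_smul c, ?_, (CPL_W Γ).smul_mem c hx.2.2⟩
      have e1 : QU.lap (c • x) = c • QU.lap x := funext fun z => NRL_smul c x hx.1 z
      rw [e1]
      exact E0.smul_mem c hx.2.1
  obtain ⟨E, hEdef⟩ : ∃ E : Submodule ℂ (CPL_H Γ F h), E = E0.comap (CPL_lin Γ F h) := ⟨_, rfl⟩
  have hmem : ∀ x : CPL_H Γ F h, x ∈ E ↔ CPL_lin Γ F h x ∈ E0 := fun x => by rw [hEdef]; rfl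
  have hfin : FiniteDimensional ℂ E := by
    refine FiniteDimensional.of_injective (K := ℂ) ((CPL_lin Γ F h).restrict (p := E) (q := E0) fun x hx => (hmem x).1 hx) ?_
    intro x y hxy
    have h1 := congrArg Subtype.val hxy
    exact Subtype.ext (CPL_lin_inj Γ F h h1)
  have hmk : ∀ x (hx : x ∈ E0), CPL_mk Γ F h x (hE x hx).2.2 ∈ E := fun x hx => (hmem _).2 hx
  obtain ⟨L, hL⟩ : ∃ L : E →ₗ[ℂ] E, ∀ x : E, CPL_lin Γ F h (L x : CPL_H Γ F h) = QU.lap (CPL_lin Γ F h (x : CPL_H Γ F h)) := by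
    refine ⟨{ toFun := fun x => ⟨CPL_mk Γ F h (QU.lap (CPL_lin Γ F h (x : CPL_H Γ F h))) (hE _ (hE _ ((hmem _).1 x.2)).2.1).2.2,
                hmk _ (hE _ ((hmem _).1 x.2)).2.1⟩
              map_add' := fun x y => ?_
              map_smul' := fun c x => ?_ }, fun x => rfl⟩
    · apply Subtype.ext
      apply CPL_lin_inj
      funext z
      exact NRL_add _ _ (hE _ ((hmem _).1 x.2)).1 (hE _ ((hmem _).1 y.2)).1 z
    · apply Subtype.ext
      apply CPL_lin_inj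
      funext z
      exact NRL_smul c _ (hE _ ((hmem _).1 x.2)).1 z
  have hsym : L.IsSymmetric := by
    intro x y
    show inner ℂ (L x : CPL_H Γ F h) (y : CPL_H Γ F h) = inner ℂ (x : CPL_H Γ F h) (L y : CPL_H Γ F h)
    rw [CPL_inner, CPL_inner, hL, hL]
    have hx := hE _ ((hmem _).1 x.2)
    have hy := hE _ ((hmem _).1 y.2)
    exact CPL_lap Γ F _ _ hΓ hF hx.2.2 hy.2.2 hx.1 hy.1 (hE _ hx.2.1).2.2.1 (hE _ hy.2.1).2.2.1
  obtain ⟨n, b, lam, hb1, hb2, hb3⟩ := CPL_abs E L hsym (CPL_mk Γ F h u hu) ⟨CPL_mk Γ F h v (hE v hvT).2.2, hmk v hvT⟩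
  refine ⟨n, fun i => CPL_lin Γ F h (b i : CPL_H Γ F h), lam, fun i => ?_, fun i j => ?_, ?_⟩
  · have hx := hE _ ((hmem _).1 (b i).2)
    refine ⟨hx.1, hx.2.2.2, fun z => ?_⟩
    have h1 := congrArg (fun x : E => CPL_lin Γ F h (x : CPL_H Γ F h) z) (hb1 i)
    simp only [hL] at h1
    exact h1
  · have h1 := hb2 j i
    rw [CPL_inner] at h1
    have h2 : ∫ z in F, CPL_lin Γ F h (b i : CPL_H Γ F h) z * conj (CPL_lin Γ F h (b j : CPL_H Γ F h) z)
        = CPL_ip F (CPL_lin Γ F h (b j : CPL_H Γ F h)) (CPL_lin Γ F h (b i : CPL_H Γ F h)) := by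
      unfold CPL_ip
      refine integral_congr_ae (Eventually.of_forall fun z => ?_)
      exact mul_comm _ _
    rw [h2, h1]
    by_cases hij : i = j
    · rw [if_pos hij, if_pos hij.symm]
    · rw [if_neg hij, if_neg fun h' => hij h'.symm]
  · have h1 := pow_le_pow_left₀ (norm_nonneg _) hb3 2
    rw [CPL_norm, CPL_norm] at h1
    have h2 : CPL_lin Γ F h (CPL_mk Γ F h u hu - ∑ i, inner ℂ (b i : CPL_H Γ F h) (CPL_mk Γ F h u hu) • (b i : CPL_H Γ F h))
        = fun z => u z - ∑ i, (∫ w in F, u w * conj (CPL_lin Γ F h (b i : CPL_H Γ F h) w)) * CPL_lin Γ F h (b i : CPL_H Γ F h) z := by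
      funext z
      rw [map_sub, map_sum, CPL_lin_mk]
      simp only [Pi.sub_apply, Finset.sum_apply, map_smul, Pi.smul_apply, smul_eq_mul]
      congr 1
      refine Finset.sum_congr rfl fun i _ => ?_
      congr 1
      rw [CPL_inner, CPL_lin_mk]
      unfold CPL_ip
      refine integral_congr_ae (Eventually.of_forall fun z => ?_)
      exact mul_comm _ _
    have h3 : CPL_lin Γ F h (CPL_mk Γ F h u hu - ((⟨CPL_mk Γ F h v (hE v hvT).2.2, hmk v hvT⟩ : E) : CPL_H Γ F h)) = fun z => u z - v z := rfl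
    rw [h2, h3] at h1
    exact h1.trans hve

end

end Pool.Agent.RPQ
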