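import Pool.Agent.helper11.RPQ.SpecI
import Pool.Agent.helper98.RPQ.EH1

set_option autoImplicit false

open scoped MatrixGroups ContDiff Topology UpperHalfPlane ComplexConjugate ENNReal
open UpperHalfPlane MeasureTheory Filter Set

namespace Pool.Agent.RPQ

open Pool.Agent.RS
open Pool.Agent.MS (BA BB st pf gk Dk amk)

theorem EHW_norm (Γ : Subgroup SL(2, ℝ)) (u : SL(2, ℝ) → ℂ) (m : SL(2, ℝ) → ENNReal) (W : ℍ → ℝ) (κ t : ℝ)
    (A : Set SL(2, ℝ)) (l : List ℕ) (hum : ∀ b, ‖u b‖ₑ ≤ m b) (g h : SL(2, ℝ)) (q : Om Γ l) :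
    ‖Complex.exp (((TH W κ t (nst l) g (ic t (vo g h q)) : ℝ) : ℂ) * Complex.I) * wgt u t A l (vo g h q)‖ₑ ≤
      inA A l (vo g h q) * ∏ j ∈ Finset.range (nst l), m (ic t (vo g h q) j) := by
  have h1 : ‖Complex.exp (((TH W κ t (nst l) g (ic t (vo g h q)) : ℝ) : ℂ) * Complex.I)‖ₑ = 1 := by
    rw [← ofReal_norm, Complex.norm_exp_ofReal_mul_I]
    exact ENNReal.ofReal_one
  rw [enorm_mul, h1, one_mul]
  exact EH1_wgt u m t A l hum _

theorem EHW_proof (hQMB : QMB_stmt) (hPIW : PIW_stmt) (hWDE : WDE_stmt) (hVXI : VXI_stmt) : EHW_stmt := by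
  classical
  intro Γ F J nc K χ W s κ t u m A l Mx S hΓ hF hχ hW hu huB huD hA hinv hl hm hum hS hMx hSs hK g h
  obtain ⟨hσ, hcount, hmeas, hperK, -⟩ := hPIW Γ F J χ W s κ t u A l hΓ hF hχ hW hu huB huD hA hinv hl
  have := hσ
  have := hcount
  have hmP : SigmaFinite (mP (nst l - 1)) := hVXI.2.2.2.2.2.1 _
  have hN := EH1_nst l hl
  set P : Om Γ l → ENNReal := fun q => ∏ j ∈ Finset.range (nst l), m (ic t (vo g h q) j) with hP
  set M : Om Γ l → ENNReal := fun q => inA A l (vo g h q) * P q with hM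
  set x : Om Γ l → Fin J → ℝ := fun q j => TH (χ j) (κ * s) t (nst l) g (ic t (vo g h q)) with hx
  set c : ENNReal := ENNReal.ofReal ((9 / 10) ^ nc) with hc
  have hPm : Measurable P := EH1_prod_meas hVXI l t m hm g h
  have hMm : Measurable M := (EH1_inA_meas hVXI l A hA g h).mul hPm
  have hMP : ∀ q, M q ≤ P q := by
    intro q
    rw [hM]
    exact mul_le_of_le_one_left' (EH1_inA_le A l _)
  -- the integral of P over the fibres
  have hPf : ∀ γ : Γ, ∫⁻ v, P (γ, v) ∂mP (nst l - 1) = mc m t (nst l - 1) g ((γ : SL(2, ℝ)) * h) := by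
    intro γ
    rw [((hWDE m t hm).1 (nst l - 1)).2 g ((γ : SL(2, ℝ)) * h), hN]
    rfl
  have hMf : ∀ γ : Γ, ∫⁻ v, M (γ, v) ∂mP (nst l - 1) = wdE m t A l g ((γ : SL(2, ℝ)) * h) := by
    intro γ
    rw [((hWDE m t hm).2 A l hA hl).2 g ((γ : SL(2, ℝ)) * h)]
    rfl
  have hPi : ∫⁻ q, P q ∂mO Γ l = ∑' γ : Γ, mc m t (nst l - 1) g ((γ : SL(2, ℝ)) * h) := by
    unfold mO
    rw [lintegral_prod _ hPm.aemeasurable, lintegral_count]
    exact tsum_congr hPf
  have hMi : ∫⁻ q, M q ∂mO Γ l = ∑' γ : Γ, wdE m t A l g ((γ : SL(2, ℝ)) * h) := by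
    unfold mO
    rw [lintegral_prod _ hMm.aemeasurable, lintegral_count]
    exact tsum_congr hMf
  have hPS : ∫⁻ q, P q ∂mO Γ l ≤ S := by
    rw [hPi]
    exact hSs g h
  have hMS : ∫⁻ q, M q ∂mO Γ l ≠ ⊤ :=
    ne_top_of_le_ne_top hS ((lintegral_mono hMP).trans hPS)
  have hQ := (hQMB (Om Γ l) (mO Γ l) J nc (fun q => Complex.exp (((TH W κ t (nst l) g (ic t (vo g h q)) : ℝ) : ℂ) * Complex.I) *
      wgt u t A l (vo g h q)) M x (hmeas g h).1 hMm (hmeas g h).2
    (fun q => EHW_norm Γ u m W κ t A l hum g h q) hMS).2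
  have hL : ∫⁻ ξ, ‖perK Γ (wdK (fun z => W z + s * VV χ ξ z) κ t u A l) g h‖ₑ ^ 2 ∂PJ J = ∫⁻ ξ, ‖∫ q, Complex.exp (((∑ j, ξ j * x q j : ℝ) : ℂ) * Complex.I) *
      (Complex.exp (((TH W κ t (nst l) g (ic t (vo g h q)) : ℝ) : ℂ) * Complex.I) *
        wgt u t A l (vo g h q)) ∂mO Γ l‖ₑ ^ 2 ∂PJ J := by
    refine lintegral_congr fun ξ => ?_
    rw [hperK ξ g h]
  rw [hL]
  refine hQ.trans ?_
  -- the inner integral
  have hin : ∀ q, M q ≠ 0 → ∫⁻ q', M q' * und1 nc (x q) (x q') ∂mO Γ l ≤ K * Mx := by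
    intro q hq
    set b : ℕ → SL(2, ℝ) := ic t (vo g h q) with hb
    have hPq : P q ≠ 0 := fun h0 => hq (by rw [hM]; simp only []; rw [h0, mul_zero])
    have hb0 : ∀ j < nst l, m (b j) ≠ 0 := by
      intro j hj
      exact (Finset.prod_ne_zero_iff.1 hPq) j (Finset.mem_range.2 hj)
    have hend : ∀ q : Om Γ l, pth t g (ic t (vo g h q)) (nst l) = (q.1 : SL(2, ℝ)) * h := by
      intro q
      have h1 := hVXI.1 t (vo g h q) (nst l)
      have h2 := (hVXI.2.2.1 (nst l - 1) g ((q.1 : SL(2, ℝ)) * h) q.2)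
      rw [hN] at h2
      have h3 : vo g h q 0 = g := h2.1
      rw [h3] at h1
      rw [h1]
      exact h2.2
    set Bd : Set Γ := {γ : Γ | ∃ b' : ℕ → SL(2, ℝ), (∀ j < nst l, m (b' j) ≠ 0) ∧
      pth t g b' (nst l) = (γ : SL(2, ℝ)) * ((q.1 : SL(2, ℝ)) * h) ∧ Und χ (κ * s) t (nst l) nc g g b b'} with hBd
    have hcard : Bd.encard ≤ K := hK g ((q.1 : SL(2, ℝ)) * h) b hb0 (hend q)
    set T : Set Γ := (fun γ : Γ => γ * q.1⁻¹) ⁻¹' Bd with hT
    have hTc : T.encard ≤ K := by
      rw [hT, Set.encard_preimage_of_bijective (Group.mulRight_bijective q.1⁻¹)]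
      exact hcard
    have hfm : Measurable fun q' : Om Γ l => T.indicator (fun _ => (1 : ENNReal)) q'.1 * P q' := by
      refine Measurable.mul ?_ hPm
      have : Measurable (T.indicator (fun _ => (1 : ENNReal))) := measurable_of_countable _
      exact this.comp measurable_fst
    have h1 : ∀ q', M q' * und1 nc (x q) (x q') ≤ T.indicator (fun _ => (1 : ENNReal)) q'.1 * P q' := by
      intro q'
      by_cases h0 : M q' * und1 nc (x q) (x q') = 0
      · rw [h0]
        exact zero_le
      · have hM0 : M q' ≠ 0 := left_ne_zero_of_mul h0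
        have hu0 : und1 nc (x q) (x q') ≠ 0 := right_ne_zero_of_mul h0
        have hP0 : P q' ≠ 0 := fun h1 => hM0 (by rw [hM]; simp only []; rw [h1, mul_zero])
        have hund : {j : Fin J | 1 ≤ |x q j - x q' j|}.ncard < nc := by
          by_contra hcon
          apply hu0
          unfold und1
          exact Set.indicator_of_notMem (show (x q, x q') ∉ {p : (Fin J → ℝ) × (Fin J → ℝ) |
            {j : Fin J | 1 ≤ |p.1 j - p.2 j|}.ncard < nc} from hcon) _
        have hmem : q'.1 ∈ T := by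
          rw [hT]
          show q'.1 * q.1⁻¹ ∈ Bd
          refine ⟨ic t (vo g h q'), ?_, ?_, ?_⟩
          · intro j hj
            exact (Finset.prod_ne_zero_iff.1 hP0) j (Finset.mem_range.2 hj)
          · rw [hend q']
            have h2 : ((q'.1 * q.1⁻¹ : Γ) : SL(2, ℝ)) = (q'.1 : SL(2, ℝ)) * (q.1 : SL(2, ℝ))⁻¹ := by
              push_cast
              rfl
            rw [h2, mul_assoc, inv_mul_cancel_left]
          · exact hund
        rw [Set.indicator_of_mem hmem, one_mul]
        refine le_trans ?_ (hMP q')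
        refine mul_le_of_le_one_right' ?_
        unfold und1
        by_cases h5 : (x q, x q') ∈ {p : (Fin J → ℝ) × (Fin J → ℝ) | {j : Fin J | 1 ≤ |p.1 j - p.2 j|}.ncard < nc}
        · rw [Set.indicator_of_mem h5]
        · rw [Set.indicator_of_notMem h5]
          exact zero_le_one
    refine (lintegral_mono h1).trans ?_
    unfold mO
    rw [lintegral_prod _ hfm.aemeasurable, lintegral_count]
    have h2 : ∀ γ : Γ, ∫⁻ v, T.indicator (fun _ => (1 : ENNReal)) γ * P (γ, v) ∂mP (nst l - 1) ≤
        T.indicator (fun _ => Mx) γ := by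
      intro γ
      by_cases hγ : γ ∈ T
      · rw [Set.indicator_of_mem hγ, Set.indicator_of_mem hγ]
        simp only [one_mul]
        rw [hPf γ]
        exact hMx _ _
      · rw [Set.indicator_of_notMem hγ, Set.indicator_of_notMem hγ]
        simp
    refine (ENNReal.tsum_le_tsum h2).trans ?_
    rw [← tsum_subtype T (fun _ => Mx), ENNReal.tsum_set_const]
    refine mul_le_mul_left ?_ Mx
    exact_mod_cast hTc
  have hfin : ∀ q, ∫⁻ q', M q * M q' * (und1 nc (x q) (x q') + c) ∂mO Γ l ≤ M q * (K * Mx + c * S) := by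
    intro q
    by_cases hq : M q = 0
    · rw [hq]
      simp
    · have hum1 : ∀ q', M q * M q' * (und1 nc (x q) (x q') + c) = M q * (M q' * und1 nc (x q) (x q') + c * M q') := by
        intro q'
        ring
      have hund : Measurable fun q' => M q' * und1 nc (x q) (x q') := by
        refine hMm.mul ?_
        have hxm : Measurable x := (hmeas g h).2
        have hset : MeasurableSet {q' : Om Γ l | {j : Fin J | 1 ≤ |x q j - x q' j|}.ncard < nc} := by
          have h6 : ∀ W : Set (Fin J), MeasurableSet {q' : Om Γ l | {j : Fin J | 1 ≤ |x q j - x q' j|} = W} := by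
            intro W
            have h7 : {q' : Om Γ l | {j : Fin J | 1 ≤ |x q j - x q' j|} = W} =
                ⋂ j : Fin J, {q' : Om Γ l | 1 ≤ |x q j - x q' j| ↔ j ∈ W} := by
              ext q'
              simp only [Set.mem_ofPred_eq, Set.mem_iInter, Set.ext_iff]
            rw [h7]
            refine MeasurableSet.iInter fun j => ?_
            have h8 : MeasurableSet {q' : Om Γ l | 1 ≤ |x q j - x q' j|} := by
              have h9 : Measurable fun q' => |x q j - x q' j| := by
                have h10 : Measurable fun q' => x q' j := (measurable_pi_apply j).comp hxm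
                exact (measurable_const.sub h10).abs
              exact measurableSet_le measurable_const h9
            by_cases hj : j ∈ W
            · have h11 : {q' : Om Γ l | 1 ≤ |x q j - x q' j| ↔ j ∈ W} = {q' : Om Γ l | 1 ≤ |x q j - x q' j|} := by
                ext q'
                simp [hj]
              rw [h11]
              exact h8
            · have h11 : {q' : Om Γ l | 1 ≤ |x q j - x q' j| ↔ j ∈ W} = {q' : Om Γ l | 1 ≤ |x q j - x q' j|}ᶜ := by
                ext q'
                simp [hj]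
              rw [h11]
              exact h8.compl
          have h12 : {q' : Om Γ l | {j : Fin J | 1 ≤ |x q j - x q' j|}.ncard < nc} =
              ⋃ W ∈ {W : Set (Fin J) | W.ncard < nc}, {q' : Om Γ l | {j : Fin J | 1 ≤ |x q j - x q' j|} = W} := by
            ext q'
            simp only [Set.mem_ofPred_eq, Set.mem_iUnion, exists_prop]
            constructor
            · intro h13
              exact ⟨_, h13, rfl⟩
            · rintro ⟨W, hW, h13⟩
              rw [h13]
              exact hW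
          rw [h12]
          refine MeasurableSet.biUnion (Set.toFinite _).countable fun W _ => h6 W
        have h14 : (fun q' => und1 nc (x q) (x q')) =
            {q' : Om Γ l | {j : Fin J | 1 ≤ |x q j - x q' j|}.ncard < nc}.indicator (fun _ => (1 : ENNReal)) := by
          funext q'
          unfold und1
          by_cases h15 : {j : Fin J | 1 ≤ |x q j - x q' j|}.ncard < nc
          · rw [Set.indicator_of_mem (show (x q, x q') ∈ {p : (Fin J → ℝ) × (Fin J → ℝ) |
              {j : Fin J | 1 ≤ |p.1 j - p.2 j|}.ncard < nc} from h15),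
              Set.indicator_of_mem (show q' ∈ {q' : Om Γ l | {j : Fin J | 1 ≤ |x q j - x q' j|}.ncard < nc} from h15)]
          · rw [Set.indicator_of_notMem (show (x q, x q') ∉ {p : (Fin J → ℝ) × (Fin J → ℝ) |
              {j : Fin J | 1 ≤ |p.1 j - p.2 j|}.ncard < nc} from h15),
              Set.indicator_of_notMem (show q' ∉ {q' : Om Γ l | {j : Fin J | 1 ≤ |x q j - x q' j|}.ncard < nc} from h15)]
        rw [h14]
        exact measurable_const.indicator hset
      have e1 : ∫⁻ a, M q * (M a * und1 nc (x q) (x a) + c * M a) ∂mO Γ l =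
          M q * ∫⁻ a, (M a * und1 nc (x q) (x a) + c * M a) ∂mO Γ l :=
        lintegral_const_mul _ (hund.add (hMm.const_mul c))
      have e2 : ∫⁻ a, (M a * und1 nc (x q) (x a) + c * M a) ∂mO Γ l =
          ∫⁻ a, M a * und1 nc (x q) (x a) ∂mO Γ l + ∫⁻ a, c * M a ∂mO Γ l := lintegral_add_left hund _
      rw [lintegral_congr hum1, e1, e2, lintegral_const_mul _ hMm]
      refine mul_le_mul_right ?_ _
      exact add_le_add (hin q hq) (mul_le_mul_right ((lintegral_mono hMP).trans hPS) _)
  refine (lintegral_mono hfin).trans ?_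
  rw [lintegral_mul_const _ hMm, hMi, mul_comm]

end Pool.Agent.RPQ
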